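import Pool.Agent.BE01.StmtsC

/-!
# STA: boundedness of the solution of the Dirichlet problem
-/

namespace Pool.Agent.BE01.H47

open Set Filter Topology MeasureTheory
open scoped InnerProductSpace ENNReal

theorem mu_fin {d : ℕ} {Ω : Set (En d)} (h : Dom Ω) : IsFiniteMeasure (mu Ω) := by
  refine ⟨?_⟩
  unfold mu
  rw [Measure.restrict_apply_univ]
  exact h.2.1.measure_lt_top

theorem half (hL : LvlStmt) (hS : StlStmt) (d : ℕ) (Ω : Set (En d))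
    (ι : VV Ω →L[ℝ] Lp ℝ 6 (mu Ω)) (hΩ : Dom Ω) (hι : Emb Ω ι) :
    ∃ C : ℝ, 0 < C ∧ ∀ (f : Lp ℝ 2 (mu Ω)) (G : VV Ω),
    (∀ ψ, Tst Ω ψ → ∫ x, ⟪(G : Lp (En d) 2 (mu Ω)) x, gradient ψ x⟫_ℝ ∂(mu Ω) =
      ∫ x, f x * ψ x ∂(mu Ω)) → ∀ᵐ x ∂(mu Ω), ι G x ≤ C * ‖f‖ := by
  haveI := mu_fin hΩ
  obtain ⟨C0, hC0, hlv⟩ := hL d Ω ι hΩ hι
  set a0 : ℝ := (mu Ω).real univ with ha0
  have ha0' : 0 ≤ a0 := measureReal_nonneg
  set b : ℝ := a0 ^ (1 / 6 : ℝ) with hb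
  have hb0 : 0 ≤ b := Real.rpow_nonneg ha0' _
  refine ⟨8 * C0 * b + 1, by positivity, ?_⟩
  intro f G hG
  have hlev := hlv f G hG
  have hnn : 0 ≤ ‖f‖ := norm_nonneg f
  have key : ∀ n : ℕ, ∀ᵐ x ∂(mu Ω),
      ι G x ≤ 8 * (C0 * (‖f‖ + 1 / ((n : ℝ) + 1))) * b + 1 / ((n : ℝ) + 1) := by
    intro n
    have he : (0 : ℝ) < 1 / ((n : ℝ) + 1) := by positivity
    set e : ℝ := 1 / ((n : ℝ) + 1) with hedef
    have h1 := hS (fun k => (mu Ω).real {x | k < ι G x}) (C0 * (‖f‖ + e)) a0 (by positivity) ha0'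
      (fun k => measureReal_nonneg)
      (fun k h _ hkh => measureReal_mono (fun x (hx : h < ι G x) => lt_trans hkh hx)
        (measure_ne_top _ _))
      (measureReal_mono (subset_univ _) (measure_ne_top _ _))
      (fun k h hk hkh => by
        refine (hlev k h hk hkh).trans ?_
        refine mul_le_mul_of_nonneg_right ?_ (Real.rpow_nonneg measureReal_nonneg _)
        have h2 : 0 < h - k := by linarith
        refine pow_le_pow_left₀ (by positivity) ?_ 3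
        refine div_le_div_of_nonneg_right ?_ h2.le
        exact mul_le_mul_of_nonneg_left (by linarith) hC0.le)
      (8 * (C0 * (‖f‖ + e)) * b + e) (by rw [← hb]; linarith)
    have h3 : (mu Ω) {x | 8 * (C0 * (‖f‖ + e)) * b + e < ι G x} = 0 :=
      (measureReal_eq_zero_iff (measure_ne_top _ _)).mp h1
    rw [ae_iff]
    have h4 : {x | ¬ ι G x ≤ 8 * (C0 * (‖f‖ + e)) * b + e} =
        {x | 8 * (C0 * (‖f‖ + e)) * b + e < ι G x} := by
      ext x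
      simp only [mem_setOf_eq, not_le]
    rw [h4]
    exact h3
  have hall := ae_all_iff.mpr key
  filter_upwards [hall] with x hx
  have hl0 : Tendsto (fun n : ℕ => 1 / ((n : ℝ) + 1)) atTop (𝓝 0) :=
    tendsto_one_div_add_atTop_nhds_zero_nat
  have hlim : Tendsto (fun n : ℕ => 8 * (C0 * (‖f‖ + 1 / ((n : ℝ) + 1))) * b +
      1 / ((n : ℝ) + 1)) atTop (𝓝 (8 * (C0 * (‖f‖ + 0)) * b + 0)) := by
    refine Tendsto.add ?_ hl0
    refine Tendsto.mul_const b ?_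
    refine Tendsto.const_mul 8 ?_
    refine Tendsto.const_mul C0 ?_
    exact Tendsto.const_add ‖f‖ hl0
  have h5 : ι G x ≤ 8 * (C0 * (‖f‖ + 0)) * b + 0 := ge_of_tendsto' hlim hx
  nlinarith

/-- STA -/
theorem sta (hL : LvlStmt) (hS : StlStmt) : StaStmt := by
  intro d Ω ι hΩ hι
  haveI := mu_fin hΩ
  obtain ⟨C, hC, h⟩ := half hL hS d Ω ι hΩ hι
  refine ⟨C, hC, ?_⟩
  intro f G hG
  have h1 := h f G hG
  have h2 := h (-f) (-G) (by
    intro ψ hψ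
    have e1 : ∫ x, ⟪((-G : VV Ω) : Lp (En d) 2 (mu Ω)) x, gradient ψ x⟫_ℝ ∂(mu Ω) =
        ∫ x, -⟪(G : Lp (En d) 2 (mu Ω)) x, gradient ψ x⟫_ℝ ∂(mu Ω) := by
      refine integral_congr_ae ?_
      have e2 : (((-G : VV Ω) : Lp (En d) 2 (mu Ω)) : En d → En d) =ᵐ[mu Ω]
          -((G : Lp (En d) 2 (mu Ω)) : En d → En d) := by
        rw [Submodule.coe_neg]
        exact Lp.coeFn_neg _
      filter_upwards [e2] with x hx
      rw [hx, Pi.neg_apply, inner_neg_left]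
    have e3 : ∫ x, (-f : Lp ℝ 2 (mu Ω)) x * ψ x ∂(mu Ω) = ∫ x, -(f x * ψ x) ∂(mu Ω) := by
      refine integral_congr_ae ?_
      filter_upwards [Lp.coeFn_neg f] with x hx
      rw [hx, Pi.neg_apply, neg_mul]
    rw [e1, e3, integral_neg, integral_neg, hG ψ hψ])
  have h3 : (ι (-G) : En d → ℝ) =ᵐ[mu Ω] -(ι G : En d → ℝ) := by
    rw [map_neg]
    exact Lp.coeFn_neg _
  filter_upwards [h1, h2, h3] with x hx1 hx2 hx3
  rw [hx3, Pi.neg_apply, norm_neg] at hx2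
  exact abs_le.mpr ⟨by linarith, hx1⟩

end Pool.Agent.BE01.H47
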