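import Pool.Agent.BE01.StmtsC

/-!
# STL: Stampacchia's lemma
-/

namespace Pool.Agent.BE01.H47

open Set Filter Topology MeasureTheory

theorem rpow_sq {y : ℝ} (hy : 0 ≤ y) : (y ^ 2) ^ (3 / 2 : ℝ) = y ^ 3 := by
  rw [← Real.rpow_natCast y 2, ← Real.rpow_mul hy, ← Real.rpow_natCast y 3]
  norm_num

/-- STL -/
theorem stl : StlStmt := by
  intro f D a0 hD ha0 hf hmono hf0 hfh k hk
  rcases ha0.eq_or_lt with h0 | hpos
  · rw [← h0, Real.zero_rpow (by norm_num), mul_zero] at hk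
    have h1 := hmono 0 k le_rfl hk
    exact le_antisymm (h1.trans (hf0.trans h0.symm.le)) (hf k)
  set b : ℝ := a0 ^ (1 / 6 : ℝ) with hb
  have hbpos : 0 < b := Real.rpow_pos_of_pos hpos _
  have hb6 : b ^ 6 = a0 := by
    rw [hb, ← Real.rpow_natCast, ← Real.rpow_mul ha0]
    norm_num
  have hkpos : 0 < k := lt_trans (by positivity) hk
  have key : ∀ n : ℕ, f (k * (1 - (1 / 2) ^ n)) ≤ (b ^ 3 * (1 / 8) ^ n) ^ 2 := by
    intro n
    induction n with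
    | zero =>
      have e1 : k * (1 - (1 / 2 : ℝ) ^ 0) = 0 := by norm_num
      have e2 : (b ^ 3 * (1 / 8 : ℝ) ^ 0) ^ 2 = a0 := by rw [← hb6]; ring
      rw [e1, e2]
      exact hf0
    | succ n ih =>
      have hp : (0 : ℝ) < (1 / 2) ^ n := by positivity
      have hp1 : (1 / 2 : ℝ) ^ n ≤ 1 := pow_le_one₀ (by norm_num) (by norm_num)
      have h1 : 0 ≤ k * (1 - (1 / 2 : ℝ) ^ n) := mul_nonneg hkpos.le (by linarith)
      have h2 : k * (1 - (1 / 2 : ℝ) ^ (n + 1)) - k * (1 - (1 / 2) ^ n) = k * (1 / 2) ^ (n + 1) := by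
        rw [pow_succ]
        ring
      have h2' : 0 < k * (1 / 2 : ℝ) ^ (n + 1) := by positivity
      have h3 : k * (1 - (1 / 2 : ℝ) ^ n) < k * (1 - (1 / 2 : ℝ) ^ (n + 1)) := by linarith
      have h4 := hfh _ _ h1 h3
      rw [h2] at h4
      have h5 : f (k * (1 - (1 / 2) ^ n)) ^ (3 / 2 : ℝ) ≤ (b ^ 3 * (1 / 8) ^ n) ^ 3 := by
        rw [← rpow_sq (by positivity : (0 : ℝ) ≤ b ^ 3 * (1 / 8) ^ n)]
        exact Real.rpow_le_rpow (hf _) ih (by norm_num)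
      have h6 : D / (k * (1 / 2) ^ (n + 1)) ≤ 2 ^ (n + 1) / (8 * b) := by
        rw [div_le_div_iff₀ h2' (by positivity)]
        have e : (2 : ℝ) ^ (n + 1) * (k * (1 / 2) ^ (n + 1)) = k := by
          rw [one_div, inv_pow]
          field_simp
        rw [e]
        linarith
      have h7 : (D / (k * (1 / 2) ^ (n + 1))) ^ 3 ≤ (2 ^ (n + 1) / (8 * b)) ^ 3 :=
        pow_le_pow_left₀ (by positivity) h6 3
      refine h4.trans ((mul_le_mul h7 h5 (Real.rpow_nonneg (hf _) _) (by positivity)).trans ?_)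
      have e1 : ((2 : ℝ) ^ (n + 1) / (8 * b)) ^ 3 * (b ^ 3 * (1 / 8) ^ n) ^ 3 =
          b ^ 6 * (2 ^ n * (1 / 8) ^ n) ^ 3 * (1 / 64) := by
        rw [pow_succ]
        field_simp
        ring
      have e2 : (2 : ℝ) ^ n * (1 / 8) ^ n = (1 / 4) ^ n := by
        rw [← mul_pow]
        norm_num
      have e3 : ((1 / 4 : ℝ) ^ n) ^ 3 = ((1 / 8) ^ n) ^ 2 := by
        rw [← pow_mul, ← pow_mul, mul_comm n 3, mul_comm n 2, pow_mul, pow_mul]
        norm_num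
      rw [e1, e2, e3]
      have e4 : (b ^ 3 * (1 / 8 : ℝ) ^ (n + 1)) ^ 2 = b ^ 6 * ((1 / 8) ^ n) ^ 2 * (1 / 64) := by
        rw [pow_succ]
        ring
      rw [e4]
  have hle : ∀ n : ℕ, f k ≤ (b ^ 3 * (1 / 8) ^ n) ^ 2 := by
    intro n
    have hp : (0 : ℝ) < (1 / 2) ^ n := by positivity
    have hp1 : (1 / 2 : ℝ) ^ n ≤ 1 := pow_le_one₀ (by norm_num) (by norm_num)
    have h3 : k * (1 - (1 / 2 : ℝ) ^ n) < k := by
      have : 0 < k * (1 / 2 : ℝ) ^ n := by positivity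
      linarith
    exact (hmono _ k (mul_nonneg hkpos.le (by linarith)) h3).trans (key n)
  have hlim : Tendsto (fun n : ℕ => (b ^ 3 * (1 / 8 : ℝ) ^ n) ^ 2) atTop (𝓝 ((b ^ 3 * 0) ^ 2)) := by
    apply Tendsto.pow
    apply Tendsto.const_mul
    exact tendsto_pow_atTop_nhds_zero_of_lt_one (by norm_num) (by norm_num)
  have h8 : f k ≤ (b ^ 3 * 0) ^ 2 := ge_of_tendsto' hlim hle
  have h9 : (b ^ 3 * 0) ^ 2 = (0 : ℝ) := by ring
  rw [h9] at h8
  exact le_antisymm h8 (hf k)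

end Pool.Agent.BE01.H47
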